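import Pool.Agent.V11300.PR.HTRace

/-!
# MP_cbbafe_pr, Q1

For `T₁ = HT` and `T₂ = HHTT` the winning probability `W` has (at least) three local extrema in
`(0,1)`: a local minimum in `(1/20, 1/2)`, a local maximum at `1/2` and a local minimum in
`(1/2, 19/20)`.
-/

namespace Pool.Agent.Results.MP_cbbafe_pr.ThreeExtrema

open Pool.Agent.V11300.PR

theorem result :
    (∀ p : Set.Ioo (0:ℝ) 1, W [true, false] [true, true, false, false] p =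
      1 / 2 + (1 / 2) * rat ((p:ℝ) * (1 - p))) ∧
    ∃ T₁ T₂ : List Bool, T₁ ≠ [] ∧ T₂ ≠ [] ∧ (¬ ∃ c : ℝ, ∀ p, W T₁ T₂ p = c) ∧
      ∃ p₁ p₂ p₃ : Set.Ioo (0:ℝ) 1, p₁ < p₂ ∧ p₂ < p₃ ∧
        IsLocalMin (W T₁ T₂) p₁ ∧ IsLocalMax (W T₁ T₂) p₂ ∧ IsLocalMin (W T₁ T₂) p₃ := by
  refine ⟨W_HT_HHTT, [true, false], [true, true, false, false], by simp, by simp, ?_, ?_⟩
  · rintro ⟨c, hc⟩
    have h1 := hc ⟨1 / 2, by norm_num⟩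
    have h2 := hc ⟨1 / 5, by norm_num⟩
    rw [W_HT_HHTT] at h1 h2
    rw [← h2] at h1
    norm_num [rat] at h1
  · have hc := continuous_W
    have ha : (1 / 20 : ℝ) ∈ Set.Ioo (0:ℝ) 1 := by norm_num
    have hb : (1 / 5 : ℝ) ∈ Set.Ioo (0:ℝ) 1 := by norm_num
    have hm : (1 / 2 : ℝ) ∈ Set.Ioo (0:ℝ) 1 := by norm_num
    have hb' : (4 / 5 : ℝ) ∈ Set.Ioo (0:ℝ) 1 := by norm_num
    have ha' : (19 / 20 : ℝ) ∈ Set.Ioo (0:ℝ) 1 := by norm_num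
    obtain ⟨p₁, h11, h12, h13⟩ := exists_localMin hc (a := ⟨1 / 20, ha⟩) (b := ⟨1 / 5, hb⟩)
      (c := ⟨1 / 2, hm⟩) (by rw [Subtype.mk_lt_mk]; norm_num) (by rw [Subtype.mk_lt_mk]; norm_num)
      (by rw [W_HT_HHTT, W_HT_HHTT]; norm_num [rat]) (by rw [W_HT_HHTT, W_HT_HHTT]; norm_num [rat])
    obtain ⟨p₃, h31, h32, h33⟩ := exists_localMin hc (a := ⟨1 / 2, hm⟩) (b := ⟨4 / 5, hb'⟩)
      (c := ⟨19 / 20, ha'⟩) (by rw [Subtype.mk_lt_mk]; norm_num)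
      (by rw [Subtype.mk_lt_mk]; norm_num)
      (by rw [W_HT_HHTT, W_HT_HHTT]; norm_num [rat]) (by rw [W_HT_HHTT, W_HT_HHTT]; norm_num [rat])
    refine ⟨p₁, ⟨1 / 2, hm⟩, p₃, h12, h31, h13, ?_, h33⟩
    have hl : (⟨2 / 5, by norm_num⟩ : Set.Ioo (0:ℝ) 1) < ⟨1 / 2, hm⟩ := by
      rw [Subtype.mk_lt_mk]; norm_num
    have hr : (⟨1 / 2, hm⟩ : Set.Ioo (0:ℝ) 1) < ⟨3 / 5, by norm_num⟩ := by
      rw [Subtype.mk_lt_mk]; norm_num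
    filter_upwards [Ioo_mem_nhds hl hr] with y hy
    have hy1 : (2 / 5 : ℝ) < y := hy.1
    have hy2 : (y : ℝ) < 3 / 5 := hy.2
    rw [W_HT_HHTT, W_HT_HHTT]
    have h5 : rat ((y:ℝ) * (1 - y)) ≤ rat (1 / 4) := by
      apply rat_le_quarter
      · nlinarith
      · nlinarith [sq_nonneg ((y:ℝ) - 1 / 2)]
    have h6 : ((1:ℝ) / 2) * (1 - 1 / 2) = 1 / 4 := by norm_num
    simp only [h6]
    linarith

end Pool.Agent.Results.MP_cbbafe_pr.ThreeExtrema
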